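import Pool.Agent.H.MP_de9ce4_nt.B

namespace Pool.Agent.Results.MP_8f4482_nt.Yes

open Finset Complex Real NumberField

/-- The polynomial `S_p` evaluated at `x`. -/
noncomputable def S (p : ℕ) (x : ℂ) : ℂ :=
  ∏ k ∈ Icc 1 ((p - 1) / 2), (x - cexp (2 * π * I * (k : ℂ) ^ 2 / p))

/-- The number of quadratic residues below `p / 12`. -/
def N (p : ℕ) [Fact p.Prime] : ℕ :=
  ((Ico 1 p).filter fun k : ℕ => 12 * k < p ∧ legendreSym p k = 1).card

/-- The rotated value, for class number `h`. -/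
noncomputable def T (p : ℕ) [Fact p.Prime] (h : ℕ) (ε : ℤ) : ℂ :=
  (-1) ^ (h / 2 + N p) * cexp (2 * π * I * ε * 5 * (p - 1) / 48) * S p (cexp (2 * π * I * ε / 12))

theorem result (p : ℕ) [Fact p.Prime] (hp : 3 < p) (K : Type) [Field K] [NumberField K]
    (hK : Module.finrank ℚ K = 2) (s : K) (hs : s ^ 2 = -p) (ε : ℤ) (hε : ε = 1 ∨ ε = -1) :
    (p % 12 = 5 → ∃ r : ℝ, 0 < r ∧ T p (classNumber K) ε = r) ∧
    (p % 24 = 11 → ∃ r : ℝ, 0 < r ∧ ε * T p (classNumber K) ε = r) ∧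
    (p % 24 = 23 → ∃ r : ℝ, r < 0 ∧ T p (classNumber K) ε = r) := by
  have H := Pool.Agent.H.MP_de9ce4_nt.main hp hK hs 5 ε hε
  simp only [Int.cast_ofNat] at H
  refine ⟨fun h => ?_, fun h => ?_, fun h => ?_⟩
  · rcases hε with rfl | rfl
    · simpa only [T, S, N, pow_zero, one_mul] using H 0 (p / 4) (by omega) (by omega)
    · simpa only [T, S, N, pow_zero, one_mul] using H 0 (-(p / 4)) (by omega) (by omega)
  · rcases hε with rfl | rfl
    · simpa only [T, S, N, pow_zero, Int.cast_one] using H 0 (p / 4) (by omega) (by simp; omega)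
    · simpa only [T, S, N, pow_one, Int.cast_neg, Int.cast_one] using
        H 1 (-(p / 4) - 1) (by omega) (by simp; omega)
  · obtain ⟨r, h1, h2⟩ := H 1 (if ε = 1 then p / 4 else -(p / 4) - 1) (by omega) (by
      rcases hε with rfl | rfl <;> simp <;> omega)
    refine ⟨-r, by linarith, ?_⟩
    rw [ofReal_neg, ← h2, pow_one, neg_one_mul, neg_neg]
    rfl

end Pool.Agent.Results.MP_8f4482_nt.Yes
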